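import Mathlib
import Pool.Agent.W_5d512e_h4.Final

namespace Pool.Agent.Results.MP_5d512e_lc.CubeRootSpace

/-- Let `w` be the infinite word generated by iterating a non-erasing dgsm and suppose that, from
some position on, the word emitted by the dgsm at position `i` of `w` is determined by the letters
`w (i - K), ..., w i`, for some `K`. Then `w` is generated by a deterministic multi-tape machine
(same machine format as in the frozen statement of the problem) whose heads, before `n` letters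
are output, stay in the first `C * (s * (log₂ n + 1))` cells of the working tapes, for every
`s ≥ 1` with `n ≤ s ^ 3`, and for every `s ≥ 1` such that for some `N` the `N`-th iteration adds
at most `s` letters and `n ≤ |τ^(N + s ^ 2)(a)|`. -/
theorem result :
  ∀ (d p : ℕ) (δ : Fin p → Fin d → Fin p) (q0 : Fin p)
    (out : Fin p → Fin d → List (Fin d)) (τ : List (Fin d) → List (Fin d))
    (a : Fin d) (w : ℕ → Fin d),
    (∀ s x, out s x ≠ []) →
    (τ = fun u => (List.foldl (fun (acc : Fin p × List (Fin d)) (x : Fin d) =>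
        (δ acc.1 x, acc.2 ++ out acc.1 x)) (q0, []) u).2) →
    [a] <+: τ [a] →
    (∀ N : ℕ, ∃ n : ℕ, N ≤ (τ^[n] [a]).length) →
    (∀ (n i : ℕ) (h : i < (τ^[n] [a]).length), (τ^[n] [a])[i] = w i) →
    (∃ K : ℕ, ∀ i j : ℕ, K ≤ i → K ≤ j → (∀ l ≤ K, w (i - l) = w (j - l)) →
      out (List.foldl δ q0 ((List.range i).map w)) (w i) =
        out (List.foldl δ q0 ((List.range j).map w)) (w j)) →
    ∃ (m k g C : ℕ)
      (δM : Fin (m+1) → (Fin k → Fin (g+1)) →
        Fin (m+1) × (Fin k → Fin (g+1)) × (Fin k → Fin 3) × Option (Fin d))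
      (conf : ℕ → Fin (m+1) × (Fin k → ℕ → Fin (g+1)) × (Fin k → ℕ) × List (Fin d)),
      conf 0 = (0, fun _ _ => 0, fun _ => 0, []) ∧
      (∀ t : ℕ, conf (t+1) =
        ((δM (conf t).1 (fun j => (conf t).2.1 j ((conf t).2.2.1 j))).1,
         fun j i => if i = (conf t).2.2.1 j
           then (δM (conf t).1 (fun j' => (conf t).2.1 j' ((conf t).2.2.1 j'))).2.1 j
           else (conf t).2.1 j i,
         fun j => (conf t).2.2.1 j
           + ((δM (conf t).1 (fun j' => (conf t).2.1 j' ((conf t).2.2.1 j'))).2.2.1 j : ℕ) - 1,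
         (conf t).2.2.2
           ++ ((δM (conf t).1 (fun j' => (conf t).2.1 j' ((conf t).2.2.1 j'))).2.2.2).toList)) ∧
      (∀ (t i : ℕ) (h : i < (conf t).2.2.2.length), (conf t).2.2.2[i] = w i) ∧
      (∀ n : ℕ, ∃ t : ℕ, n ≤ (conf t).2.2.2.length) ∧
      (∀ n t : ℕ, 1 ≤ n → (∀ t' < t, (conf t').2.2.2.length < n) →
        ∀ j : Fin k, ∀ s : ℕ, 1 ≤ s →
          (n ≤ s ^ 3 ∨ ∃ N : ℕ, (τ^[N] [a]).length ≤ (τ^[N - 1] [a]).length + s ∧
            n ≤ (τ^[N + s ^ 2] [a]).length) →
          (conf t).2.2.1 j + 1 ≤ C * (s * (Nat.log 2 n + 1))) :=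
  Pool.Agent.W_5d512e_h4.main_theorem

end Pool.Agent.Results.MP_5d512e_lc.CubeRootSpace
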