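import Pool.Agent.W_MP_5d512e_dic.Hard
import Pool.Agent.W_MP_5d512e_dic.Easy

/-!
A dichotomy for the question, by the transformation semigroup that acts on the states of the
transducer: for every semigroup the question is either answered positively or as hard as the
general question, and then also for slow growth and outputs of length at most two.
-/

open Pool.Agent.W_MP_5d512e_h33 Pool.Agent.W_MP_5d512e_dic

namespace Pool.Agent.Attic_5d512e.Dichotomy

/-- Let `F` be any set of maps from `Fin p` to itself that is closed under composition. Call `F`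
hard if there are states `s ≠ t` and
* maps `x, y` in `F` with `x s = x t = s` and `y s = y t = t` (`HasReset F`), or
* maps `e, a, b` in `F` with `e s = s`, `e t = t`, `a s = t`, `b t = s` (`HasSwap F`).

If `F` is hard and `k` is a natural number, then every infinite word generated by iterating a
non-erasing dgsm is generated in logarithmic space (that is, Q1 holds) if and only if this is true
for the non-erasing dgsm's with states `Fin p` such that every letter acts on the states by a map
in `F`, every output has length at most two, and the growth satisfies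
`|τ^n(a)| ^ k ≤ C * (n + 1) ^ (k + 1)` for some constant `C` and all `n`.

If `F` is not hard, then every infinite word generated by iterating a non-erasing dgsm with states
`Fin p` such that every letter acts on the states by a map in `F` is generated in logarithmic
space. -/
theorem result (p k : ℕ) (F : Set (Fin p → Fin p)) (hF : ∀ f ∈ F, ∀ g ∈ F, f ∘ g ∈ F) :
    (HasReset F ∨ HasSwap F →
      ((∀ (d p : ℕ) (δ : Fin p → Fin d → Fin p) (q0 : Fin p)
        (out : Fin p → Fin d → List (Fin d)) (a : Fin d) (w : ℕ → Fin d),
        Iterates δ q0 out a w → LogSpace w) ↔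
      (∀ (d : ℕ) (δ : Fin p → Fin d → Fin p) (q0 : Fin p)
        (out : Fin p → Fin d → List (Fin d)) (a : Fin d) (w : ℕ → Fin d),
        Iterates δ q0 out a w → (∀ x, (fun s => δ s x) ∈ F) →
        (∀ s x, (out s x).length ≤ 2) →
        (∃ C, ∀ n, ((trans δ q0 out)^[n] [a]).length ^ k ≤ C * (n + 1) ^ (k + 1)) →
        LogSpace w))) ∧
    (¬ (HasReset F ∨ HasSwap F) →
      ∀ (d : ℕ) (δ : Fin p → Fin d → Fin p) (q0 : Fin p)
        (out : Fin p → Fin d → List (Fin d)) (a : Fin d) (w : ℕ → Fin d),
        Iterates δ q0 out a w → (∀ x, (fun s => δ s x) ∈ F) → LogSpace w) := by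
  constructor
  · intro hh
    constructor
    · intro h d δ q0 out a w hI _ _ _
      exact h d p δ q0 out a w hI
    · intro h d p' δ q0 out a w hI
      have hQ := QG_of_main h
      rcases hh with ⟨x, hx, y, hy, s, t, hst, h1, h2, h3, h4⟩ |
        ⟨e, he, f, hf, g, hg, s, t, hst, h1, h2, h3, h4⟩
      · exact main_of_QQ (QQ_of_R hx hy hst h1 h2 h3 h4 hQ) hI
      · exact main_of_QQ (QQ_of_H he hf hg hst h1 h2 h3 h4 hQ) hI
  · intro hh d δ q0 out a w hI hact
    rw [not_or] at hh
    obtain ⟨Y, hY, hw⟩ := exists_sys hI
    rw [← hw]
    exact easy Y hF (by rw [hY]; exact hact) hh.1 hh.2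

end Pool.Agent.Attic_5d512e.Dichotomy
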