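import Pool.Agent.W_5d512e_post.Final

/-!
The question by the logic gates of the transducer: for every set `B` of Boolean functions, words
generated by sequential circuits with gates in `B` are all in logarithmic space, or they are as
hard as all dgsm words, even for one-way cellular automata.
-/

open Pool.Agent.W_MP_5d512e_h33 Pool.Agent.W_5d512e_post

namespace Pool.Agent.Attic_5d512e.GateDichotomy

/-- Let `B` be any set of Boolean functions. `Circuit B δ q0 out a`: the dgsm is a sequential
circuit whose letters are bit vectors `x`, a start letter `a` and a marker `m`, whose states are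
bit vectors `s`, which reads `x` in the state `s`, writes the single letter `g (s, x)` and goes to
the state `f (s, x)`, all coordinates of `f` and `g` being composed from `B` and the variables; on
`m` it returns to the initial state and writes `y`, `m`. `Cellular B`: moreover the state is the
last letter read.

1. If all functions of `B` are affine, or all of them preserve AND, or all of them preserve OR,
then every infinite word generated by iterating a dgsm in `Circuit B` is generated in logarithmic
space.

2. For every other set `B` the following are equivalent: Q1; Q1 for the dgsm's in `Circuit B`; Q1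
for the dgsm's in `Cellular B`. -/
theorem result (B : ∀ n : ℕ, Set ((Fin n → Bool) → Bool)) :
    ((∀ n, ∀ f ∈ B n, Affine f) ∨ (∀ n, ∀ f ∈ B n, PresAnd f) ∨ (∀ n, ∀ f ∈ B n, PresOr f) →
      ∀ (d p : ℕ) (δ : Fin p → Fin d → Fin p) (q0 : Fin p)
        (out : Fin p → Fin d → List (Fin d)) (a : Fin d) (w : ℕ → Fin d),
        Iterates δ q0 out a w → Circuit B δ q0 out a → LogSpace w) ∧
    (¬ ((∀ n, ∀ f ∈ B n, Affine f) ∨ (∀ n, ∀ f ∈ B n, PresAnd f) ∨
        (∀ n, ∀ f ∈ B n, PresOr f)) →
      List.TFAE [
        ∀ (d p : ℕ) (δ : Fin p → Fin d → Fin p) (q0 : Fin p)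
          (out : Fin p → Fin d → List (Fin d)) (a : Fin d) (w : ℕ → Fin d),
          Iterates δ q0 out a w → LogSpace w,
        ∀ (d p : ℕ) (δ : Fin p → Fin d → Fin p) (q0 : Fin p)
          (out : Fin p → Fin d → List (Fin d)) (a : Fin d) (w : ℕ → Fin d),
          Iterates δ q0 out a w → Circuit B δ q0 out a → LogSpace w,
        ∀ (d p : ℕ) (δ : Fin p → Fin d → Fin p) (q0 : Fin p)
          (out : Fin p → Fin d → List (Fin d)) (a : Fin d) (w : ℕ → Fin d),
          Iterates δ q0 out a w → Cellular B δ q0 out a → LogSpace w]) :=
  main_theorem B

end Pool.Agent.Attic_5d512e.GateDichotomy
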