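import Mathlib
import Pool.Agent.W_MP_5d512e_lc.Final

namespace Pool.Agent.Results.MP_5d512e_lc.SqrtSpace

/-- Every infinite word generated by iterating a non-erasing dgsm is generated by a deterministic
multi-tape machine (same machine format as in the frozen statement of the problem) whose heads,
before `n` letters are output, stay in the first `C * (sqrt n + 1)` cells of the working tapes;
moreover, if `n ≤ |τ^(N+1)(a)|` they stay in the first `C * (N + 1)` cells and in the first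
`C * (|τ^(N+1)(a)| - |τ^N(a)|)` cells. -/
theorem result :
  ∀ (d p : ℕ) (δ : Fin p → Fin d → Fin p) (q0 : Fin p)
    (out : Fin p → Fin d → List (Fin d)) (τ : List (Fin d) → List (Fin d))
    (a : Fin d) (w : ℕ → Fin d),
    (∀ s x, out s x ≠ []) →
    (τ = fun u => (List.foldl (fun (acc : Fin p × List (Fin d)) (x : Fin d) =>
        (δ acc.1 x, acc.2 ++ out acc.1 x)) (q0, []) u).2) →
    [a] <+: τ [a] →
    (∀ N : ℕ, ∃ n : ℕ, N ≤ (τ^[n] [a]).length) →
    (∀ (n i : ℕ) (h : i < (τ^[n] [a]).length), (τ^[n] [a])[i] = w i) →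
    ∃ (m k g C : ℕ)
      (δM : Fin (m+1) → (Fin k → Fin (g+1)) →
        Fin (m+1) × (Fin k → Fin (g+1)) × (Fin k → Fin 3) × Option (Fin d))
      (conf : ℕ → Fin (m+1) × (Fin k → ℕ → Fin (g+1)) × (Fin k → ℕ) × List (Fin d)),
      conf 0 = (0, fun _ _ => 0, fun _ => 0, []) ∧
      (∀ t : ℕ, conf (t+1) =
        ((δM (conf t).1 (fun j => (conf t).2.1 j ((conf t).2.2.1 j))).1,
         fun j i => if i = (conf t).2.2.1 j
           then (δM (conf t).1 (fun j' => (conf t).2.1 j' ((conf t).2.2.1 j'))).2.1 j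
           else (conf t).2.1 j i,
         fun j => (conf t).2.2.1 j
           + ((δM (conf t).1 (fun j' => (conf t).2.1 j' ((conf t).2.2.1 j'))).2.2.1 j : ℕ) - 1,
         (conf t).2.2.2
           ++ ((δM (conf t).1 (fun j' => (conf t).2.1 j' ((conf t).2.2.1 j'))).2.2.2).toList)) ∧
      (∀ (t i : ℕ) (h : i < (conf t).2.2.2.length), (conf t).2.2.2[i] = w i) ∧
      (∀ n : ℕ, ∃ t : ℕ, n ≤ (conf t).2.2.2.length) ∧
      (∀ n t : ℕ, 1 ≤ n → (∀ t' < t, (conf t').2.2.2.length < n) →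
        ∀ j : Fin k,
          (conf t).2.2.1 j + 1 ≤ C * (Nat.sqrt n + 1) ∧
          ∀ N : ℕ, n ≤ (τ^[N+1] [a]).length →
            (conf t).2.2.1 j + 1 ≤ C * (N + 1) ∧
            (conf t).2.2.1 j + 1 ≤ C * ((τ^[N+1] [a]).length - (τ^[N] [a]).length)) :=
  Pool.Agent.W_MP_5d512e_lc.main_theorem

end Pool.Agent.Results.MP_5d512e_lc.SqrtSpace
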